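import Mathlib
import Pool.Agent.W1.PatComp

/-!
# MP_49a8fd_lc — approximating the inclusion depth over every alphabet
-/

namespace Pool.Agent.Results.MP_49a8fd_lc.ApproximateDepth

open Pool.Agent.PatDepth Pool.Agent.H344R3.PD Pool.Agent.W1.Pat

/-- The function `f(p) = 2|p| - #var(p) - 1` on patterns (letters coded by numbers) is primitive
recursive, and over every alphabet `{0, ..., k-1}` with `k ≥ 2` letters every non-empty pattern
`p` has a largest chain length `d`, and `f(p) ≤ d ≤ 10 f(p)`. -/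
theorem result :
    (Primrec fun p : List (ℕ ⊕ ℕ) => 2 * p.length - nvar p - 1) ∧
    ∀ k : ℕ, 2 ≤ k → ∀ p : List (ℕ ⊕ Fin k), p ≠ [] →
      ∃ d : ℕ, IsGreatest {n | HasChain p n} d ∧
        2 * (p.map (Sum.map id Fin.val)).length - nvar (p.map (Sum.map id Fin.val)) - 1 ≤ d ∧
        d ≤ 10 *
          (2 * (p.map (Sum.map id Fin.val)).length - nvar (p.map (Sum.map id Fin.val)) - 1) := by
  refine ⟨primrec_formula, fun k hk p h0 => ?_⟩
  have h1 : Nontrivial (Fin k) := Fin.nontrivial_iff_two_le.mpr hk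
  rw [nvar_map, List.length_map]
  have hlow : HasChain p (2 * p.length - nvar p - 1) := by
    obtain ⟨c, h1, h2, h3, h4⟩ := (chain_greatest h0).1
    exact ⟨c, h1, h2, h3, fun i hi => (h4 i hi).1⟩
  have hA : 2 ^ 10 ≤ Fintype.card (Fin k) ^ 10 := by
    rw [Fintype.card_fin]; exact Nat.pow_le_pow_left hk 10
  have hup : ∀ n, HasChain p n → n + 10 + nvar p ≤ 11 * p.length := fun n hn =>
    depth_le (c := 10) (by norm_num) (by
      calc ((10 + 1) ^ (10 + 1)) ^ 2 ≤ (10 ^ 10) ^ 2 * 2 ^ 10 := by norm_num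
        _ ≤ _ := Nat.mul_le_mul_left _ hA) hn
  have hfin : BddAbove {n | HasChain p n} := ⟨11 * p.length, fun n hn => by
    have := hup n hn; omega⟩
  have hmem := Nat.sSup_mem ⟨_, hlow⟩ hfin
  refine ⟨sSup {n | HasChain p n}, ⟨hmem, fun n hn => le_csSup hfin hn⟩, le_csSup hfin hlow, ?_⟩
  have h2 := hup _ hmem
  have h3 := nvar_le_length p
  have h4 : 1 ≤ p.length := List.length_pos_iff.mpr h0
  omega

end Pool.Agent.Results.MP_49a8fd_lc.ApproximateDepth
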