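import Mathlib
import Pool.Agent.W1.PatComp

/-!
# MP_49a8fd_lc — computing the inclusion depth over alphabets with at least 16 letters
-/

namespace Pool.Agent.Results.MP_49a8fd_lc.LargeAlphabetsAlgorithm

open Pool.Agent.PatDepth Pool.Agent.H344R3.PD Pool.Agent.W1.Pat

/-- The function `p ↦ 2|p| - #var(p) - 1` on patterns (letters coded by numbers) is primitive
recursive, and for every alphabet `{0, ..., k-1}` with `k ≥ 16` letters it gives the inclusion
depth of every non-empty pattern. -/
theorem result :
    (Primrec fun p : List (ℕ ⊕ ℕ) => 2 * p.length - nvar p - 1) ∧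
    ∀ k : ℕ, 16 ≤ k → ∀ p : List (ℕ ⊕ Fin k), p ≠ [] →
      IsGreatest {n | HasChain p n}
        (2 * (p.map (Sum.map id Fin.val)).length - nvar (p.map (Sum.map id Fin.val)) - 1) := by
  refine ⟨primrec_formula, fun k hk p h0 => ?_⟩
  have h1 : Nontrivial (Fin k) := Fin.nontrivial_iff_two_le.mpr (by omega)
  rw [nvar_map, List.length_map]
  exact depth_exact (by rw [Fintype.card_fin]; exact hk) h0

end Pool.Agent.Results.MP_49a8fd_lc.LargeAlphabetsAlgorithm
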