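import Mathlib
import Pool.Agent.PatDepth.Defs
import Pool.Agent.W6.PAT.Step

/-!
# MP_49a8fd_lc — inclusions of pattern languages whose lengths differ by at most `2|A| - 3`
-/

namespace Pool.Agent.Results.MP_49a8fd_lc.NearChains

open Pool.Agent.PatDepth Pool.Agent.W6.PAT

/-- Let `A` be a finite alphabet with `σ ≥ 3` letters.
(1) If `L(p) ⊆ L(q)` and `|p| ≤ |q| + 2σ - 3` then
`|q| - #var(q) ≤ |p| - #var(p) + max(0, |p| - |q| + 2 - σ)`;
in particular `2|p| - #var(p) > 2|q| - #var(q)` as soon as `|p| > |q|`.
(2) For every non-empty pattern `p`, the largest number of strict inclusions in a chain of pattern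
languages from `L(x₁)` down to `L(p)` whose patterns get longer by at most `2σ - 3` symbols per step
is exactly `2|p| - #var(p) - 1`. -/
theorem result (A : Type) [Fintype A] (hA : 3 ≤ Fintype.card A) :
    (∀ p q : List (ℕ ⊕ A), Lang p ⊆ Lang q →
      p.length + 3 ≤ q.length + 2 * Fintype.card A →
      q.length + nvar p ≤ p.length + nvar q + (p.length - q.length + 2 - Fintype.card A)) ∧
    (∀ p : List (ℕ ⊕ A), p ≠ [] →
      IsGreatest {n | HasStepChain (2 * Fintype.card A - 3) p n}
        (2 * p.length - nvar p - 1)) := by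
  have : Nontrivial A := Fintype.one_lt_card_iff_nontrivial.mp (by omega)
  exact ⟨fun p q h hl => rel_le h hl, fun p h0 => step_exact h0 hA⟩

end Pool.Agent.Results.MP_49a8fd_lc.NearChains
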